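import Pool.Agent.Lib.MP_0b1f3c_gt.TI.All
import Pool.Agent.Lib.MP_0b1f3c_gt.TI.Main
import Pool.Agent.Lib.MP_0b1f3c_gt.TI.Final

/-!
# MP_0b1f3c_gt, Q1: smooth tight immersions in all eleven exceptional classes

`SmoothTight χ ori β` : the closed connected surface of Euler characteristic `χ`, orientable iff
`ori`, has a smooth tight immersion into `E³` with Brown invariant `β` (mod 8).

* (a) `K # kT` (`χ = -2k`, non-orientable) with `β = 2` and `β = -2`, `k = 1, 2, 3`;
* (b) `3P # kT` (`χ = -1 - 2k`) with `β = 3` and `β = -3`, `k = 1, 2, 3`;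
* (c) `K # T` and `K # 2T` (`χ = -2`, `χ = -4`, non-orientable) with `β = 4`;
* (d) the orientable surface of genus `k + 1` (`χ = -2k`) with `β = 4`, `k = 1, 2, 3`.

Proof: polyhedral immersed surfaces all of whose vertices are 3-valent, and either saddle vertices
(one face angle is larger than `π`) or vertices of the convex hull, can be smoothed without losing
tightness (`max (Z, min (X, Y)) = 0` becomes `M (Z, m (X, Y)) = 0` with smooth versions `M`, `m` of
max and min); such surfaces were found by computer, and the kernel checks them.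
-/

open Pool.Agent.Lib.MP_0b1f3c_gt.TI

theorem Pool.Agent.Results.MP_0b1f3c_gt.SmoothTight.result :
    (∀ k ∈ ({1, 2, 3} : Finset ℤ),
      SmoothTight (-2 * k) False 2 ∧ SmoothTight (-2 * k) False (-2)) ∧
    (∀ k ∈ ({1, 2, 3} : Finset ℤ),
      SmoothTight (-1 - 2 * k) False 3 ∧ SmoothTight (-1 - 2 * k) False (-3)) ∧
    (∀ k ∈ ({1, 2} : Finset ℤ), SmoothTight (-2 * k) False 4) ∧
    (∀ k ∈ ({1, 2, 3} : Finset ℤ), SmoothTight (-2 * k) True 4) := by
  obtain ⟨ha, hb, hc, hd⟩ := main All.CRT All.ASM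
  exact ⟨fun k hk => ⟨(ha k hk).1.smoothTight, (ha k hk).2.smoothTight⟩,
    fun k hk => ⟨(hb k hk).1.smoothTight, (hb k hk).2.smoothTight⟩,
    fun k hk => (hc k hk).smoothTight, fun k hk => (hd k hk).smoothTight⟩
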